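import Pool.Agent.Results.MP_a78e8f_nt.ThinFamilies
import Pool.Agent.X31.M3

/-!
# Level of distribution `N / exp (K (log log N) ^ 2)`, with absolute values for every modulus, on average over residues
# near the values of bilinear functions at pairs of integers with missing digits

`C₁`, `C₂` are sets of integers with `mᵢ` digits in base `bᵢ` whose digit at `bᵢ ^ j` is in `𝒟ᵢ j`, where the sets
`𝒟ᵢ j` of allowed digits are arbitrary with at least TWO elements (for instance: the integers with the decimal digits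
`0` and `1` only; the product of the two sets can be as thin as `N ^ ε`), `θ` is a real number and `g`, `h` are
ARBITRARY real functions. The values considered are `θ x y + g(x) + h(y)`; for `θ = 1`, `g = h = 0` these are the
products of two integers with missing digits.
Let `M` be an ARBITRARY dense subset of `C₁ × C₂`, and choose ARBITRARY integers `v n` within `log ^ D N` of the values at `n ∈ M` (so
the number of the residues can be as small as `N ^ ε`). Along the residues `v n` the primes up to `B N` have the level of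
distribution `N / exp (K (log log N) ^ 2)`: with ABSOLUTE VALUES for every modulus, arbitrary coefficients of the residues
and arbitrary lengths `x(q)`; and, with arbitrary weights on the moduli, for almost every individual residue.

The minimal real additive energy of these values is from `Pool.Agent.X31.M1` - `M3` (in this run);
the theorem for families of small energy is in the starting files (`MP_a78e8f_nt.ThinFamilies`).
-/

set_option autoImplicit false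

namespace Pool.Agent.Results.MP_9cfc0a_nt.BilinearAverages

open Finset

/-- the integers `0 ≤ n < b ^ m` whose digit at `b ^ j` in base `b` is in `𝒟 j`, for all `j < m` -/
def Digits (b : ℕ) (𝒟 : ℕ → Finset ℕ) (m : ℕ) : Finset ℕ :=
  (range (b ^ m)).filter (fun n => ∀ j < m, n / b ^ j % b ∈ 𝒟 j)

/-- the bilinear function `θ x y + g(x) + h(y)` -/
def bil (θ : ℝ) (g h : ℕ → ℝ) (n : ℕ × ℕ) : ℝ := θ * ((n.1 : ℝ) * n.2) + g n.1 + h n.2

/-- `M` is a set of pairs in `Digits b₁ 𝒟₁ m₁ × Digits b₂ 𝒟₂ m₂` with at least `1 / log ^ D N` of all these pairs, where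
all sets `𝒟ᵢ j` of allowed digits have at least two elements and `m₁ ≤ l m₂`, `m₂ ≤ l m₁`; the number `θ` is at most
`log ^ D N` and at least `N / (b₁ ^ m₁ b₂ ^ m₂ log ^ D N)` in absolute value; `g` and `h` are ARBITRARY functions with
`|bil θ g h| ≤ N` on `M`. -/
def Fam (b₁ b₂ l D N m₁ m₂ : ℕ) (𝒟₁ 𝒟₂ : ℕ → Finset ℕ) (θ : ℝ) (g h : ℕ → ℝ) (M : Finset (ℕ × ℕ)) : Prop :=
  (∀ j, 𝒟₁ j ⊆ range b₁ ∧ 2 ≤ (𝒟₁ j).card) ∧ (∀ j, 𝒟₂ j ⊆ range b₂ ∧ 2 ≤ (𝒟₂ j).card) ∧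
  m₁ ≤ l * m₂ ∧ m₂ ≤ l * m₁ ∧
  |θ| ≤ Real.log N ^ D ∧ (N : ℝ) / Real.log N ^ D ≤ |θ| * ((b₁ : ℝ) ^ m₁ * (b₂ : ℝ) ^ m₂) ∧
  M ⊆ Digits b₁ 𝒟₁ m₁ ×ˢ Digits b₂ 𝒟₂ m₂ ∧
  ((Digits b₁ 𝒟₁ m₁).card * (Digits b₂ 𝒟₂ m₂).card : ℝ) / Real.log N ^ D ≤ M.card ∧ ∀ n ∈ M, |bil θ g h n| ≤ N

/-- `ψ(x; q, r) - x / φ(q)`, where `ψ(x; q, r)` is the sum of `Λ(n)` over the `1 ≤ n ≤ x` with `n ≡ r (mod q)`. -/
noncomputable def E (x q : ℕ) (r : ℤ) : ℝ :=
  ∑ n ∈ (Icc 1 x).filter (fun n : ℕ => (n : ℤ) ≡ r [ZMOD q]), ArithmeticFunction.vonMangoldt n -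
    (x : ℝ) / Nat.totient q

/-- `N / exp (K (log log N) ^ 2)` -/
noncomputable def level (K N : ℕ) : ℝ := N / Real.exp (K * Real.log (Real.log N) ^ 2)

/-- `τ(q)`, the number of the divisors of `q` -/
noncomputable def τ (q : ℕ) : ℝ := q.divisors.card

open Classical in
/-- The primes up to `B N` have the level of distribution `N / exp (K (log log N) ^ 2)` along the family `v` of
residues:

* for all coefficients `|c i| ≤ log ^ T N` of the members of the family and all functions `x(q) ≤ B N`, the sum over the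
  `q ≤ N / exp (K (log log N) ^ 2)` of `τ(q) ^ T` times the ABSOLUTE VALUE of the sum of `c i E(x(q); q, v i)` over the
  members `v i > 0` coprime to `q` is at most `#ι N / log ^ U N`;
* for every function `λ` on the moduli with `|λ(q)| ≤ (τ(q) log N) ^ T` and all functions `x(q) ≤ B N`, for all but at most
  `#ι / log ^ U N` members `r > 0` of the family, the sum of `λ(q) E(x(q); q, r)` over the `q ≤ Q` coprime to `r` is at most
  `N / log ^ U N` in absolute value for ALL `Q ≤ N / exp (K (log log N) ^ 2)`. -/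
def Level (K N B T U : ℕ) {ι : Type} [Fintype ι] (v : ι → ℤ) : Prop :=
  (∀ c : ι → ℝ, (∀ i, |c i| ≤ Real.log N ^ T) → ∀ x : ℕ → ℕ, (∀ q, x q ≤ B * N) →
    ∑ q ∈ Icc 1 ⌊level K N⌋₊, τ q ^ T *
      |∑ i ∈ univ.filter (fun i : ι => 0 < v i ∧ Int.gcd (v i) q = 1), c i * E (x q) q (v i)| ≤
        Fintype.card ι * N / Real.log N ^ U) ∧
  (∀ lam : ℕ → ℝ, (∀ q, |lam q| ≤ (τ q * Real.log N) ^ T) → ∀ x : ℕ → ℕ, (∀ q, x q ≤ B * N) →
    ((univ.filter (fun i : ι => 0 < v i ∧ ∃ Q : ℕ, (Q : ℝ) ≤ level K N ∧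
      N / Real.log N ^ U < |∑ q ∈ (Icc 1 Q).filter (fun q : ℕ => Int.gcd (v i) q = 1), lam q * E (x q) q (v i)|)).card : ℝ) ≤
        Fintype.card ι / Real.log N ^ U)

lemma dat_of {b₁ b₂ l D N m₁ m₂ : ℕ} {𝒟₁ 𝒟₂ : ℕ → Finset ℕ} {θ : ℝ} {g h : ℕ → ℝ} {M : Finset (ℕ × ℕ)}
    (H : Fam b₁ b₂ l D N m₁ m₂ 𝒟₁ 𝒟₂ θ g h M) : Pool.Agent.X31.CT.Dat2 b₁ b₂ l D N m₁ m₂ 𝒟₁ 𝒟₂ θ g h M :=
  ⟨H.1, H.2.1, H.2.2.1, H.2.2.2.1, H.2.2.2.2.1, H.2.2.2.2.2.1, H.2.2.2.2.2.2.1, H.2.2.2.2.2.2.2.1,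
    H.2.2.2.2.2.2.2.2⟩

/-- Let `b₁, b₂ ≥ 2` and `l ≥ 1` be integers. Let `B`, `D`, `T`, `U` be natural numbers. There is a `K` such that for all
sufficiently large `N`, all numbers `m₁`, `m₂` of digits, ALL sets `𝒟ᵢ j` of allowed
digits, all `θ`, ALL functions `g`, `h` and all sets `M` of pairs with `Fam b₁ b₂ l D N m₁ m₂ 𝒟₁ 𝒟₂ θ g h M`, and for ALL
integers `v n`, `n ∈ M`, with `|v n - bil θ g h n| ≤ log ^ D N`, the primes up to `B N` have the level of distribution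
`N / exp (K (log log N) ^ 2)` along the family `v`. -/
theorem result (b₁ b₂ l : ℕ) (hb₁ : 2 ≤ b₁) (hb₂ : 2 ≤ b₂) (hl : 1 ≤ l) (B D T U : ℕ) :
    ∃ K N₀ : ℕ, ∀ N : ℕ, N₀ ≤ N → ∀ (m₁ m₂ : ℕ) (𝒟₁ 𝒟₂ : ℕ → Finset ℕ) (θ : ℝ) (g h : ℕ → ℝ) (M : Finset (ℕ × ℕ)),
      Fam b₁ b₂ l D N m₁ m₂ 𝒟₁ 𝒟₂ θ g h M →
      ∀ v : {n : ℕ × ℕ // n ∈ M} → ℤ, (∀ n, |(v n : ℝ) - bil θ g h n.1| ≤ Real.log N ^ D) →
        Level K N B T U v := by
  classical
  obtain ⟨h', hh, h1⟩ := (Pool.Agent.X31.Sch_bil hb₁ hb₂ l hl).en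
  obtain ⟨C, N₁, h1⟩ := h1 D
  obtain ⟨K, N₂, h2⟩ := Pool.Agent.Results.MP_a78e8f_nt.ThinFamilies.level_of h' B (max B 2) C T U (le_max_left _ _)
  refine ⟨K, N₁ + N₂ + 3, fun N hN m₁ m₂ 𝒟₁ 𝒟₂ θ g h M hfam v hv => ?_⟩
  obtain ⟨e1, e2⟩ := h1 N (by omega) M _ ⟨m₁, m₂, 𝒟₁, 𝒟₂, θ, g, h, dat_of hfam, fun _ => rfl⟩ v hv
  obtain ⟨k1, k2⟩ := h2 N (by omega) _ v (fun i => (e1 i).trans (by
    apply mul_le_mul_of_nonneg_right _ (Int.natCast_nonneg _)
    exact_mod_cast le_max_right B 2)) (e2 h' le_rfl)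
  exact ⟨k2, fun lam hlam x hx => (k1 lam hlam).2 x hx⟩

end Pool.Agent.Results.MP_9cfc0a_nt.BilinearAverages
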