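import Pool.Agent.Results.MP_a78e8f_nt.ThinFamilies
import Pool.Agent.X31.V2

/-!
# Level of distribution `N / exp (K (log log N) ^ 2)`, with absolute values for every modulus, on average over residues
# near the values of `n ^ k₀ log n` plus lower terms at integers with missing digits

`f(t) = t ^ k₀ log t + ∑ u_x t ^ x`, where `k₀ ≥ 1` is an integer and the sum is an arbitrary finite real combination of
real powers of `t` with exponents at most `k₀` (for instance `t log t - t`), `C` is the set of the integers with `m` digits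
in base `b` whose digit at `b ^ j` is in `𝒟 j`, where the sets `𝒟 j` of allowed digits are arbitrary with at least TWO
elements (for instance: the integers with the decimal digits `0` and `1` only; such sets can be as thin as `N ^ ε`). The
values considered are `b₀ + θ f(n)`, `n ∈ C`.
Let `M` be an ARBITRARY dense subset of `C`, and choose ARBITRARY integers `v n` within `log ^ D N` of the values at `n ∈ M` (so
the number of the residues can be as small as `N ^ ε`). Along the residues `v n` the primes up to `B N` have the level of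
distribution `N / exp (K (log log N) ^ 2)`: with ABSOLUTE VALUES for every modulus, arbitrary coefficients of the residues
and arbitrary lengths `x(q)`; and, with arbitrary weights on the moduli, for almost every individual residue.

The minimal real additive energy of these values is from `Pool.Agent.X31.V1`, `V2` and `R1` - `R3` (in this run);
the theorem for families of small energy is in the starting files (`MP_a78e8f_nt.ThinFamilies`).
-/

set_option autoImplicit false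

namespace Pool.Agent.Results.MP_9cfc0a_nt.LogPowerAverages

open Finset

/-- the integers `0 ≤ n < b ^ m` whose digit at `b ^ j` in base `b` is in `𝒟 j`, for all `j < m` -/
def Digits (b : ℕ) (𝒟 : ℕ → Finset ℕ) (m : ℕ) : Finset ℕ :=
  (range (b ^ m)).filter (fun n => ∀ j < m, n / b ^ j % b ∈ 𝒟 j)

/-- the function `t ^ k₀ log t + ∑ u x * t ^ x` (over the exponents `x ∈ F`) -/
noncomputable def f (k₀ : ℕ) (F : Finset ℝ) (u : ℝ → ℝ) (t : ℝ) : ℝ := t ^ k₀ * Real.log t + ∑ x ∈ F, u x * t ^ x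

/-- `M` is a subset with at least `#(Digits b 𝒟 m) / log ^ D N` elements of the set `Digits b 𝒟 m`, where all sets `𝒟 j`
of allowed digits have at least two elements; the number `θ` is at most `log ^ D N` and at least
`N / (b ^ (k₀ m) log ^ D N)` in absolute value, and `|b₀ + θ f(n)| ≤ N` for all `n ∈ M`. -/
def Fam (b k₀ : ℕ) (F : Finset ℝ) (u : ℝ → ℝ) (D N m : ℕ) (𝒟 : ℕ → Finset ℕ) (θ b₀ : ℝ) (M : Finset ℕ) : Prop :=
  (∀ j, 𝒟 j ⊆ range b ∧ 2 ≤ (𝒟 j).card) ∧
  |θ| ≤ Real.log N ^ D ∧ (N : ℝ) / Real.log N ^ D ≤ |θ| * ((b : ℝ) ^ m) ^ k₀ ∧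
  M ⊆ Digits b 𝒟 m ∧ ((Digits b 𝒟 m).card : ℝ) / Real.log N ^ D ≤ M.card ∧ ∀ n ∈ M, |b₀ + θ * f k₀ F u n| ≤ N

/-- `ψ(x; q, r) - x / φ(q)`, where `ψ(x; q, r)` is the sum of `Λ(n)` over the `1 ≤ n ≤ x` with `n ≡ r (mod q)`. -/
noncomputable def E (x q : ℕ) (r : ℤ) : ℝ :=
  ∑ n ∈ (Icc 1 x).filter (fun n : ℕ => (n : ℤ) ≡ r [ZMOD q]), ArithmeticFunction.vonMangoldt n -
    (x : ℝ) / Nat.totient q

/-- `N / exp (K (log log N) ^ 2)` -/
noncomputable def level (K N : ℕ) : ℝ := N / Real.exp (K * Real.log (Real.log N) ^ 2)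

/-- `τ(q)`, the number of the divisors of `q` -/
noncomputable def τ (q : ℕ) : ℝ := q.divisors.card

open Classical in
/-- The primes up to `B N` have the level of distribution `N / exp (K (log log N) ^ 2)` along the family `v` of
residues:

* for all coefficients `|c i| ≤ log ^ T N` of the members of the family and all functions `x(q) ≤ B N`, the sum over the
  `q ≤ N / exp (K (log log N) ^ 2)` of `τ(q) ^ T` times the ABSOLUTE VALUE of the sum of `c i E(x(q); q, v i)` over the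
  members `v i > 0` coprime to `q` is at most `#ι N / log ^ U N`;
* for every function `λ` on the moduli with `|λ(q)| ≤ (τ(q) log N) ^ T` and all functions `x(q) ≤ B N`, for all but at most
  `#ι / log ^ U N` members `r > 0` of the family, the sum of `λ(q) E(x(q); q, r)` over the `q ≤ Q` coprime to `r` is at most
  `N / log ^ U N` in absolute value for ALL `Q ≤ N / exp (K (log log N) ^ 2)`. -/
def Level (K N B T U : ℕ) {ι : Type} [Fintype ι] (v : ι → ℤ) : Prop :=
  (∀ c : ι → ℝ, (∀ i, |c i| ≤ Real.log N ^ T) → ∀ x : ℕ → ℕ, (∀ q, x q ≤ B * N) →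
    ∑ q ∈ Icc 1 ⌊level K N⌋₊, τ q ^ T *
      |∑ i ∈ univ.filter (fun i : ι => 0 < v i ∧ Int.gcd (v i) q = 1), c i * E (x q) q (v i)| ≤
        Fintype.card ι * N / Real.log N ^ U) ∧
  (∀ lam : ℕ → ℝ, (∀ q, |lam q| ≤ (τ q * Real.log N) ^ T) → ∀ x : ℕ → ℕ, (∀ q, x q ≤ B * N) →
    ((univ.filter (fun i : ι => 0 < v i ∧ ∃ Q : ℕ, (Q : ℝ) ≤ level K N ∧
      N / Real.log N ^ U < |∑ q ∈ (Icc 1 Q).filter (fun q : ℕ => Int.gcd (v i) q = 1), lam q * E (x q) q (v i)|)).card : ℝ) ≤
        Fintype.card ι / Real.log N ^ U)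

lemma dat_of {b k₀ : ℕ} {F : Finset ℝ} {u : ℝ → ℝ} {D N m : ℕ} {𝒟 : ℕ → Finset ℕ} {θ b₀ : ℝ} {M : Finset ℕ}
    (h : Fam b k₀ F u D N m 𝒟 θ b₀ M) :
    Pool.Agent.X31.CT.Dat3 b k₀ D N m 𝒟 θ b₀ (Pool.Agent.X31.lgp k₀ F u) M :=
  ⟨h.1, h.2.1, by rw [Real.rpow_natCast]; exact h.2.2.1, h.2.2.2.1, h.2.2.2.2.1, h.2.2.2.2.2⟩

/-- Let `b ≥ 2`, `k₀ ≥ 1` be integers, let `F` be a finite set of real numbers `x ≤ k₀`, and
`f(t) = t ^ k₀ log t + ∑_{x ∈ F} u x * t ^ x`. Let `B`, `D`, `T`, `U` be natural numbers. There is a `K` such that for all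
sufficiently large `N`, all numbers `m` of digits, ALL sets `𝒟 j` of allowed digits, all
real `θ`, `b₀` and all sets `M` with `Fam b k₀ F u D N m 𝒟 θ b₀ M`, and for ALL
integers `v n`, `n ∈ M`, with `|v n - (b₀ + θ * f k₀ F u n)| ≤ log ^ D N`, the primes up to `B N` have the level of distribution
`N / exp (K (log log N) ^ 2)` along the family `v`. -/
theorem result (b k₀ : ℕ) (hb : 2 ≤ b) (hk₀ : 1 ≤ k₀) (F : Finset ℝ) (u : ℝ → ℝ)
    (hF : ∀ x ∈ F, x ≤ k₀) (B D T U : ℕ) :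
    ∃ K N₀ : ℕ, ∀ N : ℕ, N₀ ≤ N → ∀ (m : ℕ) (𝒟 : ℕ → Finset ℕ) (θ b₀ : ℝ) (M : Finset ℕ), Fam b k₀ F u D N m 𝒟 θ b₀ M →
      ∀ v : {n : ℕ // n ∈ M} → ℤ, (∀ n, |(v n : ℝ) - (b₀ + θ * f k₀ F u (n.1 : ℕ))| ≤ Real.log N ^ D) →
        Level K N B T U v := by
  classical
  obtain ⟨h', hh, h1⟩ := (Pool.Agent.X31.Sch_lg hb k₀ hk₀ F u hF).en
  obtain ⟨C, N₁, h1⟩ := h1 D
  obtain ⟨K, N₂, h2⟩ := Pool.Agent.Results.MP_a78e8f_nt.ThinFamilies.level_of h' B (max B 2) C T U (le_max_left _ _)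
  refine ⟨K, N₁ + N₂ + 3, fun N hN m 𝒟 θ b₀ M hfam v hv => ?_⟩
  obtain ⟨e1, e2⟩ := h1 N (by omega) M _ ⟨m, 𝒟, θ, b₀, dat_of hfam, fun _ => rfl⟩ v hv
  obtain ⟨k1, k2⟩ := h2 N (by omega) _ v (fun i => (e1 i).trans (by
    apply mul_le_mul_of_nonneg_right _ (Int.natCast_nonneg _)
    exact_mod_cast le_max_right B 2)) (e2 h' le_rfl)
  exact ⟨k2, fun lam hlam x hx => (k1 lam hlam).2 x hx⟩

end Pool.Agent.Results.MP_9cfc0a_nt.LogPowerAverages
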