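import Pool.Agent.Results.MP_a78e8f_nt.ThinFamilies
import Pool.Agent.X31.S2

/-!
# Level of distribution `N / exp (K (log log N) ^ 2)`, with absolute values for every modulus, on average over residues
# near the values of polynomials at integers with missing digits

`f` is an arbitrary real polynomial of degree `d ≥ 2` (only the size of the leading coefficient is restricted), `C` is the
set of the integers with `m` digits in base `b` whose digit at `b ^ j` is in `𝒟 j`, where the sets `𝒟 j` of allowed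
digits are arbitrary with at least TWO elements (for instance: the integers with the decimal digits `0` and `1` only;
such sets can be as thin as `N ^ ε`).
Let `M` be an ARBITRARY dense subset of `C`, and choose ARBITRARY integers `v n` within `log ^ D N` of the values at `n ∈ M` (so
the number of the residues can be as small as `N ^ ε`). Along the residues `v n` the primes up to `B N` have the level of
distribution `N / exp (K (log log N) ^ 2)`: with ABSOLUTE VALUES for every modulus, arbitrary coefficients of the residues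
and arbitrary lengths `x(q)`; and, with arbitrary weights on the moduli, for almost every individual residue.

The minimal real additive energy of the values of polynomials at the integers with missing digits is from
`Pool.Agent.X31.K1` - `K9` (in this run);
the theorem for families of small energy is in the starting files (`MP_a78e8f_nt.ThinFamilies`).
-/

set_option autoImplicit false

namespace Pool.Agent.Results.MP_9cfc0a_nt.MissingDigitAverages

open Finset
open scoped Polynomial

/-- the integers `0 ≤ n < b ^ m` whose digit at `b ^ j` in base `b` is in `𝒟 j`, for all `j < m` -/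
def Digits (b : ℕ) (𝒟 : ℕ → Finset ℕ) (m : ℕ) : Finset ℕ :=
  (range (b ^ m)).filter (fun n => ∀ j < m, n / b ^ j % b ∈ 𝒟 j)

/-- `M` is a subset with at least `#(Digits b 𝒟 m) / log ^ D N` elements of the set `Digits b 𝒟 m`, where all sets `𝒟 j`
of allowed digits have at least two elements; `f` is a real polynomial of degree at most `d`, the coefficient of `x ^ d`
is at most `log ^ D N` and at least `N / (b ^ (d m) log ^ D N)` in absolute value, and `|f| ≤ N` on `M`. -/
def Fam (b d D N m : ℕ) (𝒟 : ℕ → Finset ℕ) (f : ℝ[X]) (M : Finset ℕ) : Prop :=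
  (∀ j, 𝒟 j ⊆ range b ∧ 2 ≤ (𝒟 j).card) ∧
  f.natDegree ≤ d ∧ |f.coeff d| ≤ Real.log N ^ D ∧ (N : ℝ) / Real.log N ^ D ≤ |f.coeff d| * (b : ℝ) ^ (d * m) ∧
  M ⊆ Digits b 𝒟 m ∧ ((Digits b 𝒟 m).card : ℝ) / Real.log N ^ D ≤ M.card ∧ ∀ n ∈ M, |f.eval (n : ℝ)| ≤ N

/-- `ψ(x; q, r) - x / φ(q)`, where `ψ(x; q, r)` is the sum of `Λ(n)` over the `1 ≤ n ≤ x` with `n ≡ r (mod q)`. -/
noncomputable def E (x q : ℕ) (r : ℤ) : ℝ :=
  ∑ n ∈ (Icc 1 x).filter (fun n : ℕ => (n : ℤ) ≡ r [ZMOD q]), ArithmeticFunction.vonMangoldt n -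
    (x : ℝ) / Nat.totient q

/-- `N / exp (K (log log N) ^ 2)` -/
noncomputable def level (K N : ℕ) : ℝ := N / Real.exp (K * Real.log (Real.log N) ^ 2)

/-- `τ(q)`, the number of the divisors of `q` -/
noncomputable def τ (q : ℕ) : ℝ := q.divisors.card

open Classical in
/-- The primes up to `B N` have the level of distribution `N / exp (K (log log N) ^ 2)` along the family `v` of
residues:

* for all coefficients `|c i| ≤ log ^ T N` of the members of the family and all functions `x(q) ≤ B N`, the sum over the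
  `q ≤ N / exp (K (log log N) ^ 2)` of `τ(q) ^ T` times the ABSOLUTE VALUE of the sum of `c i E(x(q); q, v i)` over the
  members `v i > 0` coprime to `q` is at most `#ι N / log ^ U N`;
* for every function `λ` on the moduli with `|λ(q)| ≤ (τ(q) log N) ^ T` and all functions `x(q) ≤ B N`, for all but at most
  `#ι / log ^ U N` members `r > 0` of the family, the sum of `λ(q) E(x(q); q, r)` over the `q ≤ Q` coprime to `r` is at most
  `N / log ^ U N` in absolute value for ALL `Q ≤ N / exp (K (log log N) ^ 2)`. -/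
def Level (K N B T U : ℕ) {ι : Type} [Fintype ι] (v : ι → ℤ) : Prop :=
  (∀ c : ι → ℝ, (∀ i, |c i| ≤ Real.log N ^ T) → ∀ x : ℕ → ℕ, (∀ q, x q ≤ B * N) →
    ∑ q ∈ Icc 1 ⌊level K N⌋₊, τ q ^ T *
      |∑ i ∈ univ.filter (fun i : ι => 0 < v i ∧ Int.gcd (v i) q = 1), c i * E (x q) q (v i)| ≤
        Fintype.card ι * N / Real.log N ^ U) ∧
  (∀ lam : ℕ → ℝ, (∀ q, |lam q| ≤ (τ q * Real.log N) ^ T) → ∀ x : ℕ → ℕ, (∀ q, x q ≤ B * N) →
    ((univ.filter (fun i : ι => 0 < v i ∧ ∃ Q : ℕ, (Q : ℝ) ≤ level K N ∧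
      N / Real.log N ^ U < |∑ q ∈ (Icc 1 Q).filter (fun q : ℕ => Int.gcd (v i) q = 1), lam q * E (x q) q (v i)|)).card : ℝ) ≤
        Fintype.card ι / Real.log N ^ U)

lemma dat_of {b d D N m : ℕ} {𝒟 : ℕ → Finset ℕ} {f : ℝ[X]} {M : Finset ℕ} (h : Fam b d D N m 𝒟 f M) :
    Pool.Agent.X31.CT.Dat b d D N m 𝒟 f M :=
  ⟨h.1, h.2.1, h.2.2.1, h.2.2.2.1, h.2.2.2.2.1, h.2.2.2.2.2.1, h.2.2.2.2.2.2⟩

/-- Let `b, d ≥ 2` be integers. Let `B`, `D`, `T`, `U` be natural numbers. There is a `K` such that for all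
sufficiently large `N`, all numbers `m` of digits, ALL sets `𝒟 j` of allowed digits, ALL
real polynomials `f` and all sets `M` with `Fam b d D N m 𝒟 f M`, and for ALL
integers `v n`, `n ∈ M`, with `|v n - f.eval (n : ℝ)| ≤ log ^ D N`, the primes up to `B N` have the level of distribution
`N / exp (K (log log N) ^ 2)` along the family `v`. -/
theorem result (b d : ℕ) (hb : 2 ≤ b) (hd : 2 ≤ d) (B D T U : ℕ) :
    ∃ K N₀ : ℕ, ∀ N : ℕ, N₀ ≤ N → ∀ (m : ℕ) (𝒟 : ℕ → Finset ℕ) (f : ℝ[X]) (M : Finset ℕ), Fam b d D N m 𝒟 f M →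
      ∀ v : {n : ℕ // n ∈ M} → ℤ, (∀ n, |(v n : ℝ) - f.eval ((n.1 : ℕ) : ℝ)| ≤ Real.log N ^ D) →
        Level K N B T U v := by
  classical
  obtain ⟨h', hh, h1⟩ := (Pool.Agent.X31.Sch_dg hb hd).en
  obtain ⟨C, N₁, h1⟩ := h1 D
  obtain ⟨K, N₂, h2⟩ := Pool.Agent.Results.MP_a78e8f_nt.ThinFamilies.level_of h' B (max B 2) C T U (le_max_left _ _)
  refine ⟨K, N₁ + N₂ + 3, fun N hN m 𝒟 f M hfam v hv => ?_⟩
  obtain ⟨e1, e2⟩ := h1 N (by omega) M _ ⟨m, 𝒟, f, dat_of hfam, fun _ => rfl⟩ v hv
  obtain ⟨k1, k2⟩ := h2 N (by omega) _ v (fun i => (e1 i).trans (by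
    apply mul_le_mul_of_nonneg_right _ (Int.natCast_nonneg _)
    exact_mod_cast le_max_right B 2)) (e2 h' le_rfl)
  exact ⟨k2, fun lam hlam x hx => (k1 lam hlam).2 x hx⟩

end Pool.Agent.Results.MP_9cfc0a_nt.MissingDigitAverages
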