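import Mathlib
import Pool.Agent.X25.MG.Pairs

/-! Montgomery's estimate for prime moduli `q` close to `√x` and almost all pairs (modulus, class): true with
`ψ(x)/φ(q)` as the main term, and with `x/φ(q)` exactly if `ψ(x) - x` is small. -/

set_option autoImplicit false

namespace Pool.Agent.Results.MP_9cfc0a_nt.PrimeModuliPairs
open Finset

/-- `ψ(x)` -/
noncomputable def psi (x : ℝ) : ℝ := ∑ n ∈ Icc 1 ⌊x⌋₊, ArithmeticFunction.vonMangoldt n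

/-- `ψ(x;q,a)` for `0 ≤ a < q` -/
noncomputable def psiAP (x : ℝ) (q a : ℕ) : ℝ :=
  ∑ n ∈ (Icc 1 ⌊x⌋₊).filter (fun n => n % q = a), ArithmeticFunction.vonMangoldt n

/-- `x^(1/2+ε) / q^(1/2)` -/
noncomputable def bound (ε x : ℝ) (q : ℕ) : ℝ := x ^ (1 / 2 + ε) / √(q : ℝ)

/-- the primes in `(Q/2, Q]` -/
noncomputable def primes (Q : ℝ) : Finset ℕ := (Ioc ⌊Q / 2⌋₊ ⌊Q⌋₊).filter Nat.Prime

open Classical in
/-- the number of the pairs `(q, a)`, `q` a prime in `(Q/2, Q]`, `0 ≤ a < q`, `(a, q) = 1`, with the property `E` -/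
noncomputable def pairs (Q : ℝ) (E : ℕ → ℕ → Prop) : ℝ :=
  ∑ q ∈ primes Q, ((((range q).filter (fun a => a.Coprime q ∧ E q a)).card : ℕ) : ℝ)

/-- Let `0 < ε ≤ 1` and `x ≥ x₀(ε)`, `x^(1/2-ε/4) ≤ Q ≤ √x`. -/
theorem result (ε : ℝ) (hε : 0 < ε) (hε1 : ε ≤ 1) : ∃ x₀ : ℝ, ∀ x : ℝ, x₀ ≤ x → ∀ Q : ℝ,
    x ^ (1 / 2 - ε / 4) ≤ Q → Q ≤ √x →
    pairs Q (fun q a => bound ε x q < |psiAP x q a - psi x / (Nat.totient q : ℝ)|) ≤ Q ^ 2 * x ^ (-ε) ∧
    (|psi x - x| ≤ x ^ (1 / 2 + ε) * √Q →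
      pairs Q (fun q a => 4 * bound ε x q < |psiAP x q a - x / (Nat.totient q : ℝ)|) ≤ Q ^ 2 * x ^ (-ε)) ∧
    (6 * (x ^ (1 / 2 + ε) * √Q) ≤ |psi x - x| →
      pairs Q (fun q a => |psiAP x q a - x / (Nat.totient q : ℝ)| ≤ 4 * bound ε x q) ≤ Q ^ 2 * x ^ (-ε)) := by
  obtain ⟨x1, h1⟩ := Pool.Agent.X25.MG.prime_pairs ε hε hε1
  obtain ⟨x2, h2⟩ := Pool.Agent.X25.MG.prime_pairs_iff ε hε hε1
  refine ⟨max (max x1 x2) 1, fun x hx Q hQ1 hQ2 => ?_⟩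
  have hx1 : x1 ≤ x := (le_max_left _ _).trans ((le_max_left _ _).trans hx)
  have hx2 : x2 ≤ x := (le_max_right _ _).trans ((le_max_left _ _).trans hx)
  have hx3 : 1 ≤ x := (le_max_right _ _).trans hx
  have hQx : Q ≤ x := by
    refine hQ2.trans ?_
    rw [Real.sqrt_le_left (by linarith)]
    nlinarith
  obtain ⟨h3, h4⟩ := h2 x hx2 Q hQ1 hQx
  refine ⟨?_, ?_, ?_⟩
  · refine le_trans (le_of_eq ?_) (h1 x hx1 Q hQ1 hQx)
    unfold pairs primes bound psi psiAP Pool.Agent.X25.MG.psi Pool.Agent.W110.HV.psiAP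
    refine sum_congr rfl fun q _ => ?_
    congr 3
  · intro h
    refine le_trans (le_of_eq ?_) (h3 h)
    unfold pairs primes bound psiAP Pool.Agent.W110.HV.psiAP
    refine sum_congr rfl fun q _ => ?_
    congr 3
  · intro h
    refine le_trans (le_of_eq ?_) (h4 h)
    unfold pairs primes bound psiAP Pool.Agent.W110.HV.psiAP
    refine sum_congr rfl fun q _ => ?_
    congr 3

end Pool.Agent.Results.MP_9cfc0a_nt.PrimeModuliPairs
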